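import Pool.Agent.H29.RT.Targets

/-! Module PHX: the local average of one frequency. -/

set_option autoImplicit false

open Complex MeasureTheory Set Filter Topology

namespace Pool.Agent.H31.RT

open Pool.Agent.H29.RT Pool.Agent.H25.DP Pool.Agent.H25.DL Pool.Agent.H25.MZ

lemma exp_sub_le (a b : ℝ) : ‖cexp ((a : ℂ) * I) - cexp ((b : ℂ) * I)‖ ≤ |a - b| := by
  have h1 : cexp ((a : ℂ) * I) - cexp ((b : ℂ) * I) =
      cexp ((b : ℂ) * I) * (cexp (I * ((a - b : ℝ) : ℂ)) - 1) := by
    rw [mul_sub, ← Complex.exp_add, mul_one]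
    congr 2
    push_cast
    ring
  rw [h1, norm_mul, Complex.norm_exp_ofReal_mul_I, one_mul]
  exact Real.norm_exp_I_mul_ofReal_sub_one_le

lemma log_taylor {x : ℝ} (hx : |x| ≤ 1 / 2) : |Real.log (1 + x) - x| ≤ 2 * x ^ 2 := by
  have h := Real.abs_log_sub_add_sum_range_le (x := -x) (by rw [abs_neg]; linarith) 1
  simp only [Finset.range_one, Finset.sum_singleton, abs_neg] at h
  norm_num at h
  have e1 : -x + Real.log (1 + x) = Real.log (1 + x) - x := by ring
  rw [e1] at h
  refine h.trans ?_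
  rw [div_le_iff₀ (by linarith), ← sq_abs x]
  nlinarith [sq_nonneg |x|]

lemma phase_taylor {d B η u y : ℝ} (hu : 1 ≤ u) (hy : |y| ≤ u / 2) :
    |(d * (u + y) * Real.log (u + y) + B * (u + y) + η * Real.log (u + y)) -
      ((d * u * Real.log u + B * u + η * Real.log u) + y * (d * Real.log u + d + B + η / u))| ≤
      (4 * |d| + 2 * |η|) * y ^ 2 / u := by
  have hu0 : 0 < u := by linarith
  set x := y / u with hx
  have hyx : y = u * x := by rw [hx]; field_simp
  have hxa : |x| ≤ 1 / 2 := by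
    rw [hx, abs_div, abs_of_pos hu0, div_le_iff₀ hu0]
    linarith
  have hx1 : 0 < 1 + x := by linarith [(abs_le.mp hxa).1]
  have hx2 : 1 + x ≤ 3 / 2 := by linarith [(abs_le.mp hxa).2]
  have hlog : Real.log (u + y) = Real.log u + Real.log (1 + x) := by
    rw [hyx, ← Real.log_mul hu0.ne' hx1.ne']
    congr 1
    ring
  have hl := log_taylor hxa
  set L := Real.log (1 + x) with hL
  have e1 : (d * (u + y) * Real.log (u + y) + B * (u + y) + η * Real.log (u + y)) -
      ((d * u * Real.log u + B * u + η * Real.log u) + y * (d * Real.log u + d + B + η / u)) =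
      d * u * ((1 + x) * (L - x) + x ^ 2) + η * (L - x) := by
    rw [hlog, hyx]
    field_simp
    ring
  rw [e1]
  have h1 : |(1 + x) * (L - x) + x ^ 2| ≤ 4 * x ^ 2 := by
    calc |(1 + x) * (L - x) + x ^ 2| ≤ |(1 + x) * (L - x)| + |x ^ 2| := abs_add_le _ _
      _ = (1 + x) * |L - x| + x ^ 2 := by
          rw [abs_mul, abs_of_pos hx1, abs_of_nonneg (sq_nonneg x)]
      _ ≤ 3 / 2 * (2 * x ^ 2) + x ^ 2 := by gcongr
      _ = _ := by ring
  have h2 : |d * u * ((1 + x) * (L - x) + x ^ 2)| ≤ |d| * u * (4 * x ^ 2) := by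
    rw [abs_mul, abs_mul, abs_of_pos hu0]
    gcongr
  have h3 : |η * (L - x)| ≤ |η| * (2 * x ^ 2) := by
    rw [abs_mul]
    gcongr
  have h4 : |η| * (2 * x ^ 2) ≤ |η| * (2 * (u * x ^ 2)) := by
    have : x ^ 2 ≤ u * x ^ 2 := le_mul_of_one_le_left (sq_nonneg x) hu
    gcongr
  calc _ ≤ |d * u * ((1 + x) * (L - x) + x ^ 2)| + |η * (L - x)| := abs_add_le _ _
    _ ≤ |d| * u * (4 * x ^ 2) + |η| * (2 * (u * x ^ 2)) := add_le_add h2 (h3.trans h4)
    _ = _ := by rw [hyx]; field_simp

lemma norm_gs {β : ℝ} (hβ : 0 < β) (y : ℝ) :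
    ‖gs β (y * I)‖ = Real.exp (-(1 / β ^ 2) * y ^ 2) / (β * Real.sqrt Real.pi) := by
  unfold gs
  rw [norm_div]
  congr 1
  · rw [Complex.norm_exp]
    congr 1
    have : (((y : ℂ) * I / β) ^ 2) = ((-(1 / β ^ 2) * y ^ 2 : ℝ) : ℂ) := by
      rw [div_pow, mul_pow, Complex.I_sq]
      push_cast
      ring
    rw [this, Complex.ofReal_re]
  · rw [norm_mul, Complex.norm_real, Complex.norm_real, Real.norm_of_nonneg hβ.le,
      Real.norm_of_nonneg (Real.sqrt_nonneg _)]

theorem pf_PHX (h : T_GX) : T_PHX := by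
  intro Y d t₀ κ B η C β hβ hY hκ hmain
  obtain ⟨T₁, hT₁⟩ := h β hβ
  set b : ℝ := 1 / β ^ 2 with hb
  have hb0 : 0 < b := by positivity
  set C₂ : ℝ := 4 * |d| + 2 * |η| with hC₂
  have hC₂0 : 0 ≤ C₂ := by positivity
  set P : ℝ → ℝ := fun y => (2 * |C| + C₂ * y ^ 2) * (Real.exp (-b * y ^ 2) /
    (β * Real.sqrt Real.pi)) with hP
  have hPi : Integrable P := by
    have h1 : Integrable fun y : ℝ => Real.exp (-b * y ^ 2) := integrable_exp_neg_mul_sq hb0
    have h2 : Integrable fun y : ℝ => y ^ 2 * Real.exp (-b * y ^ 2) := by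
      have := integrable_rpow_mul_exp_neg_mul_sq hb0 (s := 2) (by norm_num)
      simpa using this
    have h3 := ((h1.const_mul (2 * |C|)).add (h2.const_mul C₂)).div_const
      (β * Real.sqrt Real.pi)
    refine h3.congr (Eventually.of_forall fun y => ?_)
    simp only [hP, Pi.add_apply]
    ring
  have hP0 : ∀ y, 0 ≤ P y := by
    intro y
    simp only [hP]
    positivity
  set C₄ : ℝ := ∫ y, P y with hC₄
  have hC₄0 : 0 ≤ C₄ := integral_nonneg hP0
  -- large T
  have hev : ∀ᶠ T : ℝ in atTop, Real.log T ≤ T / 2 := by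
    have h1 := Real.isLittleO_log_id_atTop.def (show (0:ℝ) < 1 / 2 by norm_num)
    filter_upwards [h1, eventually_ge_atTop (1:ℝ)] with T hT hT1
    rw [Real.norm_of_nonneg (Real.log_nonneg hT1), id, Real.norm_of_nonneg (by linarith)] at hT
    linarith
  obtain ⟨T₂, hT₂⟩ := Filter.eventually_atTop.mp hev
  refine ⟨C₄ + 1, max (max T₁ T₂) (max 1 (2 * t₀)), by linarith, ?_⟩
  intro T hT u hu l ξ
  have hTT₁ : T₁ ≤ T := ((le_max_left _ _).trans (le_max_left _ _)).trans hT
  have hTT₂ : T₂ ≤ T := ((le_max_right _ _).trans (le_max_left _ _)).trans hT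
  have hT1 : 1 ≤ T := ((le_max_left _ _).trans (le_max_right _ _)).trans hT
  have hTt₀ : 2 * t₀ ≤ T := ((le_max_right _ _).trans (le_max_right _ _)).trans hT
  have hT0 : 0 < T := by linarith
  have hlogT := hT₂ T hTT₂
  have hlog0 : 0 ≤ Real.log T := Real.log_nonneg hT1
  have hu1 : 1 ≤ u := hT1.trans hu.1
  set R := Real.log T with hR
  have hyR : ∀ y ∈ Icc (-R) R, |y| ≤ T / 2 := fun y hy => (abs_le.mpr hy).trans hlogT
  have huy : ∀ y ∈ Icc (-R) R, T / 2 ≤ u + y := by
    intro y hy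
    have := (abs_le.mp (hyR y hy)).1
    linarith [hu.1]
  set Δ := d * Real.log u + d + B + η / u - l - ξ with hΔ
  set φu := d * u * Real.log u + B * u + η * Real.log u with hφu
  have hgx := hT₁ T hTT₁ Δ
  -- the two integrands
  set F₁ : ℝ → ℂ := fun y => cexp ((-((u + y) * l) : ℝ) * I) *
          Y (1 / 2 + (u + y : ℝ) * I) * gx β ξ (y * I) with hF₁
  set F₂ : ℝ → ℂ := fun y => κ * cexp ((φu - u * l : ℝ) * I) *
    (cexp ((Δ * y : ℝ) * I) * gs β (y * I)) with hF₂
  have hcY : ContinuousOn (fun y : ℝ => Y (1 / 2 + (u + y : ℝ) * I)) (Icc (-R) R) := by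
    intro y hy
    have h1 : t₀ ≤ (1 / 2 + ((u + y : ℝ) : ℂ) * I).im := by
      have := huy y hy
      simp
      linarith
    have h2 := (hY.diff _ h1).continuousAt
    have h3 : ContinuousAt (fun y : ℝ => (1 / 2 + ((u + y : ℝ) : ℂ) * I)) y := by fun_prop
    exact (ContinuousAt.comp (f := fun y : ℝ => (1 / 2 + ((u + y : ℝ) : ℂ) * I)) h2
      h3).continuousWithinAt
  have hcgs : Continuous fun y : ℝ => gs β (y * I) := by
    unfold gs
    fun_prop
  have hcgx : Continuous fun y : ℝ => gx β ξ (y * I) := by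
    unfold gx
    fun_prop
  have hI₁ : IntervalIntegrable F₁ volume (-R) R := by
    apply ContinuousOn.intervalIntegrable
    rw [uIcc_of_le (by linarith)]
    refine ContinuousOn.mul (ContinuousOn.mul ?_ hcY) hcgx.continuousOn
    apply Continuous.continuousOn
    fun_prop
  have hI₂ : IntervalIntegrable F₂ volume (-R) R := by
    apply Continuous.intervalIntegrable
    refine Continuous.mul (by fun_prop) (Continuous.mul (by fun_prop) hcgs)
  have hdiff : ∀ y ∈ Icc (-R) R, ‖F₁ y - F₂ y‖ ≤ P y / T := by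
    intro y hy
    have hy1 := huy y hy
    have hy0 : 0 < u + y := by linarith
    have hg : gx β ξ (y * I) = cexp ((-(y * ξ) : ℝ) * I) * gs β (y * I) := by
      unfold gx
      congr 2
      push_cast
      ring
    have h1 : ‖Y (1 / 2 + (u + y : ℝ) * I) - κ * cexp ((d * (u + y) * Real.log (u + y) +
        B * (u + y) + η * Real.log (u + y) : ℝ) * I)‖ ≤ 2 * |C| / T := by
      refine (hmain (u + y) (by linarith)).trans ?_
      calc C / (u + y) ≤ |C| / (u + y) := by gcongr; exact le_abs_self C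
        _ ≤ |C| / (T / 2) := by gcongr
        _ = _ := by ring
    have h2 : ‖cexp ((d * (u + y) * Real.log (u + y) + B * (u + y) +
        η * Real.log (u + y) : ℝ) * I) - cexp ((φu + y * (d * Real.log u + d + B + η / u) : ℝ) *
          I)‖ ≤ C₂ * y ^ 2 / T := by
      refine (exp_sub_le _ _).trans ?_
      have hyu : |y| ≤ u / 2 := (hyR y hy).trans (by linarith [hu.1])
      refine (phase_taylor hu1 hyu).trans ?_
      have : T ≤ u := hu.1
      gcongr
    have e1 : F₂ y = cexp ((-((u + y) * l) : ℝ) * I) *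
        (κ * cexp ((φu + y * (d * Real.log u + d + B + η / u) : ℝ) * I)) *
          (cexp ((-(y * ξ) : ℝ) * I) * gs β (y * I)) := by
      simp only [hF₂]
      have e2 : cexp ((φu - u * l : ℝ) * I) * cexp ((Δ * y : ℝ) * I) =
          cexp ((-((u + y) * l) : ℝ) * I) *
            cexp ((φu + y * (d * Real.log u + d + B + η / u) : ℝ) * I) *
            cexp ((-(y * ξ) : ℝ) * I) := by
        rw [← Complex.exp_add, ← Complex.exp_add, ← Complex.exp_add]
        congr 1
        rw [hΔ]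
        push_cast
        ring
      linear_combination κ * gs β (y * I) * e2
    have e3 : F₁ y - F₂ y = cexp ((-((u + y) * l) : ℝ) * I) *
        ((Y (1 / 2 + (u + y : ℝ) * I) - κ * cexp ((d * (u + y) * Real.log (u + y) +
          B * (u + y) + η * Real.log (u + y) : ℝ) * I)) +
        κ * (cexp ((d * (u + y) * Real.log (u + y) + B * (u + y) +
          η * Real.log (u + y) : ℝ) * I) -
          cexp ((φu + y * (d * Real.log u + d + B + η / u) : ℝ) * I))) *
        (cexp ((-(y * ξ) : ℝ) * I) * gs β (y * I)) := by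
      rw [e1]
      simp only [hF₁]
      rw [hg]
      ring
    rw [e3, norm_mul, norm_mul, Complex.norm_exp_ofReal_mul_I, one_mul, norm_mul,
      Complex.norm_exp_ofReal_mul_I, one_mul, norm_gs hβ]
    have h3 : ‖(Y (1 / 2 + (u + y : ℝ) * I) - κ * cexp ((d * (u + y) * Real.log (u + y) +
          B * (u + y) + η * Real.log (u + y) : ℝ) * I)) +
        κ * (cexp ((d * (u + y) * Real.log (u + y) + B * (u + y) +
          η * Real.log (u + y) : ℝ) * I) -
          cexp ((φu + y * (d * Real.log u + d + B + η / u) : ℝ) * I))‖ ≤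
        2 * |C| / T + C₂ * y ^ 2 / T := by
      refine (norm_add_le _ _).trans (add_le_add h1 ?_)
      rw [norm_mul, hκ, one_mul]
      exact h2
    calc _ ≤ (2 * |C| / T + C₂ * y ^ 2 / T) *
          (Real.exp (-(1 / β ^ 2) * y ^ 2) / (β * Real.sqrt Real.pi)) := by
          gcongr
      _ = P y / T := by
          simp only [hP, hb]
          ring
  have hsub : (∫ y in (-R)..R, F₁ y) - (∫ y in (-R)..R, F₂ y) =
      ∫ y in (-R)..R, (F₁ y - F₂ y) := (intervalIntegral.integral_sub hI₁ hI₂).symm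
  have hbound : ‖∫ y in (-R)..R, (F₁ y - F₂ y)‖ ≤ C₄ / T := by
    have h1 : ‖∫ y in (-R)..R, (F₁ y - F₂ y)‖ ≤ ∫ y in (-R)..R, P y / T := by
      apply intervalIntegral.norm_integral_le_of_norm_le (by linarith)
      · exact Eventually.of_forall fun y hy => hdiff y ⟨hy.1.le, hy.2⟩
      · exact (hPi.div_const T).intervalIntegrable
    refine h1.trans ?_
    rw [intervalIntegral.integral_of_le (by linarith)]
    calc ∫ y in Ioc (-R) R, P y / T ≤ ∫ y, P y / T :=
          setIntegral_le_integral (hPi.div_const T)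
            (Eventually.of_forall fun y => div_nonneg (hP0 y) hT0.le)
      _ = C₄ / T := by rw [integral_div]
  have hF₂int : (∫ y in (-R)..R, F₂ y) = κ * cexp ((φu - u * l : ℝ) * I) *
      ∫ y in (-R)..R, cexp ((Δ * y : ℝ) * I) * gs β (y * I) := by
    simp only [hF₂]
    rw [intervalIntegral.integral_const_mul]
  have hT10 : T ^ (-10 : ℝ) ≤ 1 / T := by
    have : T ^ (-10 : ℝ) ≤ T ^ (-1 : ℝ) := Real.rpow_le_rpow_of_exponent_le hT1 (by norm_num)
    refine this.trans (le_of_eq ?_)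
    rw [Real.rpow_neg_one, one_div]
  have hfin : ‖(∫ y in (-R)..R, F₂ y) - κ * cexp ((φu - u * l : ℝ) * I) *
      (Real.exp (-(β ^ 2 * Δ ^ 2 / 4)) : ℂ)‖ ≤ 1 / T := by
    rw [hF₂int, ← mul_sub, norm_mul, norm_mul, hκ, Complex.norm_exp_ofReal_mul_I, one_mul,
      one_mul]
    exact hgx.trans hT10
  calc ‖(∫ y in (-R)..R, F₁ y) - κ * cexp ((φu - u * l : ℝ) * I) *
      (Real.exp (-(β ^ 2 * Δ ^ 2 / 4)) : ℂ)‖
      = ‖(∫ y in (-R)..R, (F₁ y - F₂ y)) + ((∫ y in (-R)..R, F₂ y) -
        κ * cexp ((φu - u * l : ℝ) * I) * (Real.exp (-(β ^ 2 * Δ ^ 2 / 4)) : ℂ))‖ := by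
        rw [← hsub]
        congr 1
        ring
    _ ≤ C₄ / T + 1 / T := (norm_add_le _ _).trans (add_le_add hbound hfin)
    _ = (C₄ + 1) / T := by ring

end Pool.Agent.H31.RT
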